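import Mathlib

set_option autoImplicit false
open MeasureTheory Finset Filter Topology
open scoped Classical

namespace Pool.Agent.H.MP_bae362_pr

variable {E : Type*}

def D : List (Set E) → (Set E → ℝ) → Set E → ℝ
  | [], u => u
  | B :: l, u => D l fun A => u A - u (A ∪ B)

theorem D_shift (l : List (Set E)) (u : Set E → ℝ) (A B : Set E) :
    D l (fun A => u (A ∪ B)) A = D l u (A ∪ B) := by
  induction l generalizing u with
  | nil => rfl
  | cons C l ih => simp only [D, ← ih, Set.union_right_comm _ C B]

theorem D_add (l : List (Set E)) (u v : Set E → ℝ) (A : Set E) :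
    D l (fun A => u A + v A) A = D l u A + D l v A := by
  induction l generalizing u v with
  | nil => rfl
  | cons C l ih => simp only [D, ← ih]; congr; ext; ring

variable [MeasurableSpace E]

def CM (u : Set E → ℝ) : Prop :=
  ∀ l : List (Set E), (∀ B ∈ l, MeasurableSet B) → ∀ A, MeasurableSet A → 0 ≤ D l u A

variable {u v : Set E → ℝ}

theorem CM.add (h : CM u) (k : CM v) : CM fun A => u A + v A := fun l a A b => by
  rw [D_add]; exact add_nonneg (h l a A b) (k l a A b)

theorem CM.mul (h : CM u) (k : CM v) : CM fun A => u A * v A := fun l a => by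
  induction l generalizing u v with
  | nil => exact fun A b => mul_nonneg (h [] a A b) (k [] a A b)
  | cons B l ih =>
    intro A b
    obtain ⟨a1, a2⟩ := List.forall_mem_cons.1 a
    have := add_nonneg (ih (u := fun A => u A - u (A ∪ B)) (fun l c =>
      h (B :: l) (List.forall_mem_cons.2 ⟨a1, c⟩)) k a2 A b) (ih (u := fun A => u (A ∪ B))
        (v := fun A => v A - v (A ∪ B)) (fun l c A d => by
          rw [D_shift]; exact h l c _ (d.union a1)) (fun l c =>
            k (B :: l) (List.forall_mem_cons.2 ⟨a1, c⟩)) a2 A b)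
    rw [← D_add] at this
    exact this.trans_eq (by simp only [D]; congr; ext; ring)

omit [MeasurableSpace E] in
theorem D_min (l : List (Set E)) (h0 : ∀ A, 0 ≤ u A) (h : ∀ A B, u (A ∪ B) = min (u A) (u B))
    (A : Set E) : 0 ≤ D l u A := by
  induction l generalizing u with
  | nil => exact h0 A
  | cons B l ih =>
    refine ih (fun A => by simp [h]) fun A C => ?_
    simp only [h, min_def]; split_ifs <;> linarith

theorem CM.const {c : ℝ} (h : 0 ≤ c) : CM fun _ : Set E => c := fun l _ A _ =>
  D_min l (fun _ => h) (by simp) A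

theorem CM.lim {ι : Type*} {F : Filter ι} [F.NeBot] {w : ι → Set E → ℝ} (h : ∀ᶠ i in F, CM (w i))
    (k : ∀ A, MeasurableSet A → Tendsto (w · A) F (𝓝 (u A))) : CM u := fun l a A b => by
  refine ge_of_tendsto (f := fun i => D l (w i) A) (x := F) ?_ (h.mono fun i h => h l a A b)
  clear h
  induction l generalizing u w with
  | nil => exact k A b
  | cons B l ih =>
    obtain ⟨a1, a2⟩ := List.forall_mem_cons.1 a
    exact ih (fun A c => (k A c).sub (k _ (c.union a1))) a2

theorem CM.cg (h : CM u) (k : ∀ A, MeasurableSet A → u A = v A) : CM v :=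
  CM.lim (F := (pure () : Filter Unit)) (w := fun _ => u) h fun A a => k A a ▸ tendsto_const_nhds

theorem CM.int {Ω : Type*} [MeasurableSpace Ω] {P : Measure Ω} {f : Ω → Set E → ℝ}
    (hi : ∀ A, MeasurableSet A → Integrable (f · A) P)
    (h : ∀ᵐ ω ∂P, (∀ A, 0 ≤ f ω A) ∧ ∀ A B, f ω (A ∪ B) = min (f ω A) (f ω B)) :
    CM fun A => ∫ ω, f ω A ∂P := fun l a A b => by
  refine (integral_nonneg_of_ae (h.mono fun ω h => D_min l h.1 h.2 A)).trans_eq ?_
  clear h
  induction l generalizing f with
  | nil => rfl
  | cons B l ih =>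
    obtain ⟨a1, a2⟩ := List.forall_mem_cons.1 a
    simp only [D]
    rw [ih (f := fun ω A => f ω A - f ω (A ∪ B)) (fun A c => (hi A c).sub (hi _ (c.union a1))) a2]
    have e : ∀ (l : List (Set E)) (u v : Set E → ℝ), (∀ B ∈ l, MeasurableSet B) →
        (∀ A, MeasurableSet A → u A = v A) → D l u A = D l v A := by
      intro l
      induction l with
      | nil => exact fun u v _ h => h A b
      | cons B l ih =>
        refine fun u v a h => ih _ _ (List.forall_mem_cons.1 a).2 fun A c => ?_
        rw [h A c, h _ (c.union (List.forall_mem_cons.1 a).1)]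
    exact e l _ _ a2 fun A c => integral_sub (hi A c) (hi _ (c.union a1))

theorem main {s t : Set E → ℝ} {K : ℝ} (ht : CM t) (hh : CM fun A => K - (s A + t A))
    (h0 : ∀ A, 0 ≤ s A) {n : ℕ} (hn : 1 ≤ n) (A : Fin n → Set E) (hA : ∀ i, MeasurableSet (A i)) :
    s (⋂ i, A i) / (s (⋂ i, A i) + t (⋂ i, A i)) ≤ ∑ I : Finset (Fin n) with I.Nonempty,
      (-1) ^ (#I + 1) * (s (⋃ i ∈ I, A i) / (s (⋃ i ∈ I, A i) + t (⋃ i ∈ I, A i))) := by
  have t0 : ∀ A, MeasurableSet A → 0 ≤ t A := ht [] (by simp)
  have k0 : ∀ A, MeasurableSet A → 0 ≤ K - (s A + t A) := hh [] (by simp)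
  have h1 : ∀ δ > 0, CM fun A => (s A + t A + δ)⁻¹ := fun δ hδ => by
    have K0 : 0 < K + δ := by linarith [k0 ∅ .empty, t0 ∅ .empty, h0 ∅]
    refine CM.lim (F := atTop) (w := fun m A => (K + δ)⁻¹ * ∑ j ∈ range m,
      ((K + δ)⁻¹ * (K - (s A + t A))) ^ j) (.of_forall fun m => (CM.const (by positivity)).mul ?_)
      fun A a => ?_
    · induction m with
      | zero => exact .const le_rfl
      | succ m ih =>
        simp only [geom_sum_succ]
        exact (((CM.const (by positivity)).mul hh).mul ih).add (.const zero_le_one)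
    · have := t0 A a; have := h0 A; have := k0 A a
      have r : (K + δ)⁻¹ * (K - (s A + t A)) < 1 := by rw [inv_mul_lt_iff₀ K0]; linarith
      refine ((hasSum_geometric_of_lt_one (by positivity) r).tendsto_sum_nat.const_mul _).trans_eq ?_
      rw [← mul_inv]; congr 2; field_simp; ring
  have h2 : CM fun A => 1 - s A / (s A + t A) := by
    refine CM.lim (F := 𝓝[>] 0) (w := fun δ A => (t A + δ) * (s A + t A + δ)⁻¹)
      (eventually_nhdsWithin_of_forall fun δ h => (ht.add (.const h.le)).mul (h1 δ h)) fun A a => ?_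
    have := t0 A a; have := h0 A
    by_cases e : s A + t A = 0
    · refine tendsto_const_nhds.congr' (eventually_nhdsWithin_of_forall fun δ h => ?_)
      simp [show s A = 0 by linarith, show t A = 0 by linarith, (show 0 < δ from h).ne']
    · refine (tendsto_nhdsWithin_of_tendsto_nhds ((tendsto_id.const_add _).mul
        ((tendsto_id.const_add _).inv₀ (by simpa)))).trans_eq ?_
      congr 1; simp only [add_zero]; field_simp; ring
  generalize hu : (fun A => s A / (s A + t A)) = v
  have hv : ∀ A, s A / (s A + t A) = v A := congrFun hu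
  simp only [hv] at h2 ⊢
  have h3 : ∀ S : Finset (Fin n), ∃ l : List (Set E), (∀ B ∈ l, MeasurableSet B) ∧ ∀ u B,
      ∑ I ∈ S.powerset, (-1) ^ #I * u (B ∪ ⋃ i ∈ I, A i) = D l u B := fun S => by
    induction S using Finset.induction with
    | empty => exact ⟨[], by simp, by simp [D]⟩
    | insert i S hi ih =>
      obtain ⟨l, a, b⟩ := ih
      refine ⟨A i :: l, List.forall_mem_cons.2 ⟨hA i, a⟩, fun u B => ?_⟩
      rw [sum_powerset_insert hi, D, ← b, ← sum_add_distrib]
      refine sum_congr rfl fun I hI => ?_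
      rw [card_insert_of_notMem fun h => hi (mem_powerset.1 hI h), set_biUnion_insert,
        Set.union_comm (A i), ← Set.union_assoc]; ring
  obtain ⟨l, a, b⟩ := h3 univ
  have := h2 l a _ (.iInter hA)
  have z : ∑ I : Finset (Fin n), (-1 : ℝ) ^ #I = 0 := by
    have : Nonempty (Fin n) := ⟨⟨0, hn⟩⟩
    exact_mod_cast sum_powerset_neg_one_pow_card_of_nonempty (univ_nonempty (α := Fin n))
  rw [← b, powerset_univ] at this
  simp only [mul_sub, mul_one, sum_sub_distrib, z] at this
  rw [← sum_filter_add_sum_filter_not univ Finset.Nonempty, sum_congr rfl fun I hI => by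
    obtain ⟨i, hi⟩ := (mem_filter.1 hI).2
    rw [Set.union_eq_right.2 ((Set.iInter_subset _ i).trans (Set.subset_iUnion₂ (s := fun i _ => A i)
      i hi))]] at this
  simp only [not_nonempty_iff_eq_empty, filter_eq', mem_univ, if_true, sum_singleton] at this
  simp only [pow_succ, mul_neg, neg_mul, mul_one, sum_neg_distrib]
  simp at this; linarith

theorem hit {Ω E : Type*} [MeasurableSpace Ω] (P : Measure Ω) [IsFiniteMeasure P] [TopologicalSpace E]
    [LocallyCompactSpace E] [SecondCountableTopology E] [T2Space E] [MeasurableSpace E] [BorelSpace E]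
    {X : Ω → Set E} (hc : ∀ ω, IsClosed (X ω))
    (hX : ∀ K, IsCompact K → MeasurableSet {ω | (X ω ∩ K).Nonempty}) {B : Set E}
    (hB : MeasurableSet B) : NullMeasurableSet {ω | (X ω ∩ B).Nonempty} P := by
  have key : ∀ (K : Set E) (f : (ℕ → ℕ) → E), IsCompact K → Continuous f → (∀ x, f x ∈ K) →
      NullMeasurableSet {ω | (X ω ∩ Set.range f).Nonempty} P := fun K f hK hf hfK => by
    have a1 : ∀ c < P {ω | (X ω ∩ Set.range f).Nonempty}, ∃ M, MeasurableSet M ∧
        M ⊆ {ω | (X ω ∩ Set.range f).Nonempty} ∧ c ≤ P M := fun c h => by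
      have st : ∀ (S : Set (ℕ → ℕ)) (k : ℕ), ∃ m, c < P {ω | (X ω ∩ f '' S).Nonempty} →
          c < P {ω | (X ω ∩ f '' (S ∩ {σ | σ k ≤ m})).Nonempty} := fun S k => by
        by_contra! e
        refine (e 0).1.not_ge (le_trans (measure_mono fun ω ⟨_, a, σ, b, d⟩ => by
          exact Set.mem_iUnion.2 ⟨σ k, _, a, σ, ⟨b, le_refl (σ k)⟩, d⟩) ((Monotone.measure_iUnion (s := fun m =>
            {ω | (X ω ∩ f '' (S ∩ {σ | σ k ≤ m})).Nonempty}) fun m n l ω ⟨_, a, σ, b, d⟩ =>
              ⟨_, a, σ, ⟨b.1, b.2.trans l⟩, d⟩).trans_le (iSup_le fun m => (e m).2)))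
      choose m hm using st
      let N : ℕ → Set (ℕ → ℕ) := Nat.rec Set.univ fun k S => S ∩ {σ | σ k ≤ m S k}
      have n1 : ∀ k, c < P {ω | (X ω ∩ f '' N k).Nonempty} := fun k => by
        induction k with
        | zero => simpa [N] using h
        | succ k ih => exact hm _ _ ih
      have n2 : Antitone N := antitone_nat_of_succ_le fun k => Set.inter_subset_left
      have n3 : ∀ k, IsCompact (closure (f '' N k)) := fun k => hK.of_isClosed_subset isClosed_closure
        (closure_minimal (by rintro _ ⟨x, -, rfl⟩; exact hfK x) hK.isClosed)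
      have n4 : Antitone fun k => closure (f '' N k) := fun a b l =>
        closure_mono (Set.image_mono (n2 l))
      refine ⟨⋂ k, {ω | (X ω ∩ closure (f '' N k)).Nonempty}, .iInter fun k => hX _ (n3 k),
        fun ω h => ?_, ?_⟩
      · obtain ⟨y, hy⟩ := IsCompact.nonempty_iInter_of_sequence_nonempty_isCompact_isClosed
          (fun k => X ω ∩ closure (f '' N k)) (fun k => Set.inter_subset_inter_right _ (n4 k.le_succ))
          (Set.mem_iInter.1 h) ((n3 0).inter_left (hc ω)) fun k => (hc ω).inter isClosed_closure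
        rw [Set.mem_iInter] at hy
        letI := TopologicalSpace.metrizableSpaceMetric E
        choose z hz d using fun k : ℕ => Metric.mem_closure_iff.1 (hy k).2 (1 / (k + 1 : ℝ))
          (by positivity)
        choose σ h1 h2 using hz
        choose a _ ha using fun j => ((hyperfilter ℕ).map (σ · j)).eq_pure_of_finite_mem
          (Set.finite_Iic (m (N j) j)) (Nat.hyperfilter_le_atTop ((eventually_gt_atTop j).mono
            fun k l => (n2 l (h1 k)).2))
        refine ⟨y, (hy 0).1, a, tendsto_nhds_unique (l := hyperfilter ℕ) (f := fun k => f (σ k))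
          ((hf.tendsto a).comp (tendsto_pi_nhds.2 fun j => ?_)) (.mono_left
            (tendsto_iff_dist_tendsto_zero.2 (squeeze_zero (fun _ => dist_nonneg) (fun k => ?_)
              tendsto_one_div_add_atTop_nhds_zero_nat)) Nat.hyperfilter_le_atTop)⟩
        · exact (congrArg Ultrafilter.toFilter (ha j)).le.trans (pure_le_nhds _)
        · rw [h2, dist_comm]; exact (d k).le
      · rw [Antitone.measure_iInter (fun a b l ω h => h.mono (Set.inter_subset_inter_right _ (n4 l)))
          (fun k => (hX _ (n3 k)).nullMeasurableSet) ⟨0, measure_ne_top _ _⟩]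
        exact le_iInf fun k => (n1 k).le.trans (measure_mono fun ω h => h.mono
          (Set.inter_subset_inter_right _ subset_closure))
    rcases eq_zero_or_pos (P {ω | (X ω ∩ Set.range f).Nonempty}) with e | e
    · exact .of_null e
    obtain ⟨u, -, u1, u2⟩ := exists_seq_strictMono_tendsto' e
    choose M m1 m2 m3 using fun k => a1 _ (u1 k).2
    exact (MeasurableSet.iUnion m1).nullMeasurableSet.congr (ae_eq_of_subset_of_measure_ge
      (Set.iUnion_subset m2) (le_of_tendsto' u2 fun k => (m3 k).trans (measure_mono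
        (Set.subset_iUnion _ k))) (MeasurableSet.iUnion m1).nullMeasurableSet (measure_ne_top _ _))
  have : {ω | (X ω ∩ B).Nonempty} = ⋃ k, {ω | (X ω ∩ (B ∩ compactCovering E k)).Nonempty} := by
    ext ω; simp only [Set.mem_iUnion, Set.mem_setOf_eq]
    exact ⟨fun ⟨x, a, b⟩ => (exists_mem_compactCovering x).imp fun k h => ⟨x, a, b, h⟩,
      fun ⟨k, x, a, b, _⟩ => ⟨x, a, b⟩⟩
  refine this ▸ .iUnion fun k => ?_
  have := isCompact_iff_compactSpace.1 (isCompact_compactCovering E k)
  letI := TopologicalSpace.metrizableSpaceMetric (compactCovering E k)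
  have := (measurable_subtype_coe (p := (· ∈ compactCovering E k)) hB).analyticSet
  rw [AnalyticSet] at this
  rw [Set.inter_comm B, ← Subtype.image_preimage_coe]
  rcases this with e | ⟨f, hf, e⟩
  · simp [e]
  · rw [← e, ← Set.range_comp]
    exact key _ _ (isCompact_compactCovering E k) (continuous_subtype_val.comp hf) fun x => (f x).2

end Pool.Agent.H.MP_bae362_pr
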